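import Pool.Agent.MP_e23604_nt.Defs

/-!
The family in the final statement.
-/

namespace Pool.Agent.MP_e23604_nt

/-- The curve y^2 = x^3 + D x. -/
def EZ (D : ℤ) : WeierstrassCurve ℚ := ⟨0, 0, 0, D, 0⟩

end Pool.Agent.MP_e23604_nt
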